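import Pool.Agent.H55.HED.Four
import Pool.Agent.H11.HED.HYP
import Pool.Agent.H26.HED.CLO
import Pool.Agent.H99.HED.EXP
import Pool.Agent.H99.HED.FIN
import Pool.Agent.H65.HED.GEN
import Pool.Agent.H87.HED.LSO

/-!
# The Poljak–Rödl function is at most 4

For every `n` there are finite graphs `G`, `H` of chromatic number `n` whose tensor product has
chromatic number at most `4`.
-/

set_option autoImplicit false

namespace Pool.Agent.H55.HED

open Pool.Agent.H60.HED

theorem four_bound (n : ℕ) : ∃ (V W : Type) (_ : Fintype V) (_ : Fintype W)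
    (G : SimpleGraph V) (H : SimpleGraph W), G.chromaticNumber = (n : ℕ∞) ∧
      H.chromaticNumber = (n : ℕ∞) ∧
      (SimpleGraph.fromRel (fun p q : V × W => G.Adj p.1 q.1 ∧ H.Adj p.2 q.2)).chromaticNumber
        ≤ ((4 : ℕ) : ℕ∞) := by
  refine fin 4 (by norm_num) ?_ n
  intro n
  obtain ⟨V, fV, G, up, hup, hG, hs⟩ := rec4 hyp gen clo n (max n 4)
  obtain ⟨s, hF, -⟩ := hs 0 1 one_pos
  obtain ⟨U, hU1, hU2, hU3⟩ := cov4 n V G up hup s hF
  have hG4 : ¬ G.Colorable 4 := fun h => hG (h.mono (le_max_right n 4))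
  have hGn : ¬ G.Colorable n := fun h => hG (h.mono (le_max_left n 4))
  obtain ⟨W, fW, H, hH, hcol⟩ := exp_thm lso 4 n V G U hU1 hU2 hU3 hG4
  exact ⟨V, W, fV, fW, G, H, hGn, fun h => hH (h.mono (Nat.le_succ n)), hcol⟩

end Pool.Agent.H55.HED
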