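import Pool.Agent.H60.HED.Defs
import Pool.Agent.H60.HED.REC
import Pool.Agent.H60.HED.COV

/-!
# Four colours for the Poljak–Rödl function

The four colour version of `REC` and `COV`: a family of odd functions `s v` on the sphere for an
oriented graph, exact on all edges whose *upper* end is active.
-/

set_option autoImplicit false

namespace Pool.Agent.H55.HED

open Pool.Agent.H60.HED Finset

/-- A family of odd continuous functions `s v` on the sphere for the oriented graph `up`. -/
structure Fam4 (k : ℕ) {V : Type} (up : V → V → Prop) (s : V → E k → ℝ) : Prop where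
  cont : ∀ v, Continuous (s v)
  odd : ∀ v x, s v (-x) = - s v x
  sign : ∀ v w, up v w → ∀ x ∈ Sph k, 1 / 2 < s v x → 1 ≤ s w x
  exact : ∀ x ∈ Sph k, ∀ d : V → V → ℝ,
    ∃ g : V → ℝ, ∀ v w, up v w → |s v x| < 2 → g w - g v = d v w

/-- The orientation of the recursive graph on `S ⊕ I × W`. -/
def stepUp {W S I : Type} (up : W → W → Prop) (e : I → W → S) : S ⊕ I × W → S ⊕ I × W → Prop :=
  fun a b => match a, b with
    | Sum.inl _, Sum.inl _ => False
    | Sum.inl s, Sum.inr p => e p.1 p.2 = s
    | Sum.inr _, Sum.inl _ => False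
    | Sum.inr p, Sum.inr q => p.1 = q.1 ∧ up p.2 q.2

/-- For every `n` there is a finite oriented graph, not `n`-colourable, which has such a family
concentrated near the hyperplane `pe k x t = 0`, for every `t` and `ε`. -/
def S_REC4 : Prop := ∀ (k n : ℕ), ∃ (V : Type) (_ : Fintype V) (G : SimpleGraph V)
  (up : V → V → Prop), (∀ v w, G.Adj v w ↔ up v w ∨ up w v) ∧
  ¬ G.Colorable n ∧ ∀ (t ε : ℝ), 0 < ε → ∃ s : V → E k → ℝ, Fam4 k up s ∧
    ∀ v, ∀ x ∈ Sph k, ε ≤ pe k x t → 2 ≤ s v x

theorem rec4 (h1 : S_HYP) (h2 : S_GEN) (h3 : S_CLO) : S_REC4 := by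
  intro k n
  induction n with
  | zero =>
    refine ⟨Unit, inferInstance, ⊥, fun _ _ => False, ?_, ?_, ?_⟩
    · intro v w
      simp
    · rintro ⟨C⟩
      exact (C ()).elim0
    · intro t ε hε
      refine ⟨fun _ x => 2 / ε * pe k x t, ⟨?_, ?_, ?_, ?_⟩, ?_⟩
      · intro v
        exact continuous_const.mul (pe_cont k t)
      · intro v x
        simp only [pe_neg]; ring
      · intro v w h
        exact absurd h id
      · intro x _ d
        exact ⟨fun _ => 0, fun v w h => absurd h id⟩
      · intro v x _ h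
        show 2 ≤ 2 / ε * pe k x t
        rw [div_mul_eq_mul_div, le_div_iff₀ hε]
        linarith
  | succ n ih =>
    obtain ⟨W, fW, G, up, hup, hG, hs⟩ := ih
    obtain ⟨S, I, fS, fI, e, hc, hx⟩ := h1 k (n + 1) W (Nat.succ_pos n)
    refine ⟨S ⊕ I × W, inferInstance, stepG G e, stepUp up e, ?_,
      stepG_not_colorable G e n hG hc, ?_⟩
    · rintro (v | ⟨i, w⟩) (v' | ⟨i', w'⟩)
      · simp [stepG, stepUp]
      · simp [stepG, stepUp]
      · simp [stepG, stepUp]
      · simp only [stepG, stepUp, hup]
        constructor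
        · rintro ⟨h, h' | h'⟩
          · exact Or.inl ⟨h, h'⟩
          · exact Or.inr ⟨h.symm, h'⟩
        · rintro (⟨h, h'⟩ | ⟨h, h'⟩)
          · exact ⟨h, Or.inl h'⟩
          · exact ⟨h.symm, Or.inr h'⟩
    intro t ε hε
    obtain ⟨η, hη, hclo⟩ := h3 k t (ε / 8) (by linarith)
    -- distinct points close to t
    let N : ℕ := Fintype.card I
    let ti : I → ℝ := fun i => t + η * ((Fintype.equivFin I i : ℕ) / ((N : ℝ) + 1))
    have hN : (0 : ℝ) < (N : ℝ) + 1 := by positivity
    have hti : Function.Injective ti := by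
      intro i j hij
      have h4 : η * ((Fintype.equivFin I i : ℕ) / ((N : ℝ) + 1)) =
          η * ((Fintype.equivFin I j : ℕ) / ((N : ℝ) + 1)) := by
        have := hij
        simp only [ti] at this
        linarith
      have h5 := mul_left_cancel₀ hη.ne' h4
      have h6 := (div_left_inj' hN.ne').mp h5
      have h7 : (Fintype.equivFin I i : ℕ) = (Fintype.equivFin I j : ℕ) := by exact_mod_cast h6
      exact (Fintype.equivFin I).injective (Fin.ext h7)
    have htc : ∀ i, |ti i - t| < η := by
      intro i
      have h4 : ti i - t = η * ((Fintype.equivFin I i : ℕ) / ((N : ℝ) + 1)) := by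
        simp only [ti]; ring
      have h5 : (0 : ℝ) ≤ (Fintype.equivFin I i : ℕ) / ((N : ℝ) + 1) := by positivity
      have h6 : ((Fintype.equivFin I i : ℕ) : ℝ) / ((N : ℝ) + 1) < 1 := by
        rw [div_lt_one hN]
        have : ((Fintype.equivFin I i : ℕ) : ℝ) < N := by exact_mod_cast (Fintype.equivFin I i).2
        linarith
      rw [h4, abs_of_nonneg (by positivity)]
      nlinarith
    obtain ⟨ε0, hε0, hgen⟩ := h2 k I ti hti
    let ε1 : ℝ := min ε0 (ε / 8)
    have hε1 : 0 < ε1 := lt_min hε0 (by linarith)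
    have hε1' : ε1 ≤ ε / 8 := min_le_right _ _
    have hε1'' : ε1 ≤ ε0 := min_le_left _ _
    choose s hsF hsL using fun i => hs (ti i) ε1 hε1
    have hsL' : ∀ i w, ∀ x ∈ Sph k, pe k x (ti i) ≤ -ε1 → s i w x ≤ -2 := by
      intro i w x hx hp
      have := hsL i w (-x) (neg_sph hx) (by rw [pe_neg]; linarith)
      rw [(hsF i).odd] at this
      linarith
    have hact : ∀ i w, ∀ x ∈ Sph k, |s i w x| < 2 → |pe k x (ti i)| < ε1 := by
      intro i w x hx hp
      by_contra hcon
      push Not at hcon
      rcases le_abs.mp hcon with h | h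
      · have := hsL i w x hx h
        rw [abs_lt] at hp
        linarith
      · have := hsL' i w x hx (by linarith)
        rw [abs_lt] at hp
        linarith
    let s' : S ⊕ I × W → E k → ℝ := fun v x => match v with
      | Sum.inl _ => 2 / ε * pe k x t
      | Sum.inr p => s p.1 p.2 x
    have hodd : ∀ v x, s' v (-x) = - s' v x := by
      rintro (v | ⟨i, w⟩) x
      · simp only [s', pe_neg]; ring
      · exact (hsF i).odd w x
    have hsign1 : ∀ v i w, e i w = v → ∀ x ∈ Sph k, 1 / 2 < s' (Sum.inl v) x →
        2 ≤ s' (Sum.inr (i, w)) x := by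
      intro v i w _ x hx h
      apply hsL i w x hx
      have h4 : 1 / 2 < 2 / ε * pe k x t := h
      have h5 : ε / 4 < pe k x t := by
        rw [div_mul_eq_mul_div, lt_div_iff₀ hε] at h4
        linarith
      have h6 := hclo (ti i) (htc i) x hx
      rw [abs_lt] at h6
      linarith
    refine ⟨s', ⟨?_, hodd, ?_, ?_⟩, ?_⟩
    · rintro (v | ⟨i, w⟩)
      · exact continuous_const.mul (pe_cont k t)
      · exact (hsF i).cont w
    · rintro (v | ⟨i, w⟩) (v' | ⟨i', w'⟩) hadj x hx h
      · exact absurd hadj id
      · have := hsign1 v i' w' hadj x hx h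
        linarith
      · exact absurd hadj id
      · obtain ⟨h4, h5⟩ := hadj
        simp only at h4 h5
        subst h4
        exact (hsF i).sign w w' h5 x hx h
    · intro x hx' d
      classical
      choose g hg using fun i => (hsF i).exact x hx' (fun w w' => d (Sum.inr (i, w)) (Sum.inr (i, w')))
      let F : Finset I := Finset.univ.filter (fun i => |pe k x (ti i)| < ε0)
      have hF : F.card ≤ k := hgen x hx' F (fun i hi => (Finset.mem_filter.mp hi).2)
      obtain ⟨α, γ, hαγ⟩ := hx F hF (fun i w => g i w - d (Sum.inl (e i w)) (Sum.inr (i, w)))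
      have hmem : ∀ i w, |s' (Sum.inr (i, w)) x| < 2 → i ∈ F := by
        intro i w h
        have := hact i w x hx' h
        exact Finset.mem_filter.mpr ⟨Finset.mem_univ _, lt_of_lt_of_le this hε1''⟩
      -- active copies are shifted, in an inactive copy the potential is dictated by the matching
      let g' : S ⊕ I × W → ℝ := fun v => match v with
        | Sum.inl v => α v
        | Sum.inr p => if p.1 ∈ F then g p.1 p.2 + γ p.1
            else α (e p.1 p.2) + d (Sum.inl (e p.1 p.2)) (Sum.inr p)
      refine ⟨g', ?_⟩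
      rintro (v | ⟨i, w⟩) (v' | ⟨i', w'⟩) hadj hv
      · exact absurd hadj id
      · have hadj' : e i' w' = v := hadj
        by_cases hi : i' ∈ F
        · have h4 := hαγ i' hi w'
          have h5 : g' (Sum.inr (i', w')) = g i' w' + γ i' := if_pos hi
          have h6 : g' (Sum.inl v) = α v := rfl
          rw [h5, h6, ← hadj']
          linarith
        · have h5 : g' (Sum.inr (i', w')) = α (e i' w') + d (Sum.inl (e i' w')) (Sum.inr (i', w')) :=
            if_neg hi
          have h6 : g' (Sum.inl v) = α v := rfl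
          rw [h5, h6, ← hadj']
          ring
      · exact absurd hadj id
      · obtain ⟨h4, h5⟩ := hadj
        simp only at h4 h5
        subst h4
        have hi : i ∈ F := hmem i w hv
        have := hg i w w' h5 hv
        have h6 : g' (Sum.inr (i, w')) = g i w' + γ i := if_pos hi
        have h7 : g' (Sum.inr (i, w)) = g i w + γ i := if_pos hi
        rw [h6, h7]
        linarith
    · rintro (v | ⟨i, w⟩) x hx' h
      · show 2 ≤ 2 / ε * pe k x t
        rw [div_mul_eq_mul_div, le_div_iff₀ hε]
        linarith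
      · apply hsL i w x hx'
        have h6 := hclo (ti i) (htc i) x hx'
        rw [abs_lt] at h6
        linarith

/-- A family gives odd open covers of the sphere with four colours. -/
theorem cov4 (k : ℕ) (V : Type) [Fintype V] (G : SimpleGraph V) (up : V → V → Prop)
    (hup : ∀ v w, G.Adj v w ↔ up v w ∨ up w v) (s : V → E k → ℝ) (hs : Fam4 k up s) :
    ∃ U : V → Fin 4 → Set (E k), (∀ v i, IsOpen (U v i)) ∧
      (∀ v, ∀ x ∈ Sph k, ∃ i, x ∈ U v i) ∧
      ∀ v w, G.Adj v w → ∀ i, ∀ x ∈ Sph k, x ∈ U v i → -x ∉ U w i := by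
  classical
  let Pot : Finset V → (V → ℝ) → Prop := fun A g =>
    ∀ v w, up v w → v ∈ A → g w - g v = 3 / 2
  let gA : Finset V → V → ℝ := fun A => if h : ∃ g, Pot A g then h.choose else fun _ => 0
  have hgA : ∀ A, (∃ g, Pot A g) → Pot A (gA A) := by
    intro A h
    simp only [gA, dif_pos h]
    exact h.choose_spec
  let lam : Finset V → E k → ℝ := fun A x =>
    (∏ v ∈ A, th (s v x)) * ∏ v ∈ univ \ A, (1 - th (s v x))
  have hlam_sum : ∀ x, ∑ A ∈ (univ : Finset V).powerset, lam A x = 1 := by
    intro x
    have := Finset.prod_add (fun v => th (s v x)) (fun v => 1 - th (s v x)) (univ : Finset V)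
    rw [← this]
    simp
  have hlam_cont : ∀ A, Continuous (lam A) := by
    intro A
    refine Continuous.mul (continuous_finset_prod _ fun v _ => th_cont.comp (hs.cont v))
      (continuous_finset_prod _ fun v _ => continuous_const.sub (th_cont.comp (hs.cont v)))
  have hlam_neg : ∀ A x, lam A (-x) = lam A x := by
    intro A x
    simp only [lam, hs.odd, th_neg]
  have hlam_pot : ∀ A, ∀ x ∈ Sph k, lam A x ≠ 0 → Pot A (gA A) := by
    intro A x hx h
    apply hgA
    obtain ⟨g, hg⟩ := hs.exact x hx (fun _ _ => 3 / 2)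
    have h1 : ∏ v ∈ A, th (s v x) ≠ 0 := left_ne_zero_of_mul h
    refine ⟨g, fun v w hvw hv => hg v w hvw ?_⟩
    exact th_ne_zero (Finset.prod_ne_zero_iff.mp h1 v hv)
  have hlam_mem : ∀ A x, lam A x ≠ 0 → ∀ v, |s v x| ≤ 1 → v ∈ A := by
    intro A x h v hv
    by_contra hcon
    have h1 : ∏ v ∈ univ \ A, (1 - th (s v x)) ≠ 0 := right_ne_zero_of_mul h
    have h2 := Finset.prod_ne_zero_iff.mp h1 v (by simp [hcon])
    have := th_ne_one h2
    linarith
  let g : V → E k → ℝ := fun v x => ∑ A ∈ (univ : Finset V).powerset, lam A x * gA A v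
  have hg_cont : ∀ v, Continuous (g v) := by
    intro v
    exact continuous_finset_sum _ fun A _ => (hlam_cont A).mul continuous_const
  have hg_neg : ∀ v x, g v (-x) = g v x := by
    intro v x
    simp only [g, hlam_neg]
  have hg_diff : ∀ v w, up v w → ∀ x ∈ Sph k, |s v x| ≤ 1 →
      g w x - g v x = 3 / 2 := by
    intro v w hvw x hx hv
    calc g w x - g v x = ∑ A ∈ (univ : Finset V).powerset, lam A x * (gA A w - gA A v) := by
          simp only [g, ← Finset.sum_sub_distrib, mul_sub]
      _ = ∑ A ∈ (univ : Finset V).powerset, lam A x * (3 / 2) := by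
          refine Finset.sum_congr rfl fun A _ => ?_
          by_cases h : lam A x = 0
          · rw [h]; ring
          · rw [hlam_pot A x hx h v w hvw (hlam_mem A x h v hv)]
      _ = 3 / 2 := by rw [← Finset.sum_mul, hlam_sum, one_mul]
  let U : V → Fin 4 → Set (E k) := fun v i =>
    if (i : ℕ) = 3 then {x | s v x < -(1 / 2)}
    else {x | -1 < s v x ∧ g v x ∈ pal (i : ℕ)}
  have key : ∀ v w, up v w → ∀ i, ∀ x ∈ Sph k, x ∈ U v i → -x ∈ U w i → False := by
    intro v w hvw i x hx hxv hxw
    simp only [U] at hxv hxw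
    have h5 := hs.odd w x
    split_ifs at hxv hxw with h1
    · have h3 : s v x < -(1 / 2) := hxv
      have h4 : s w (-x) < -(1 / 2) := hxw
      have h6 := hs.sign v w hvw (-x) (neg_sph hx) (by rw [hs.odd]; linarith)
      linarith
    · obtain ⟨h3, h4⟩ := hxv
      obtain ⟨h6, h7⟩ := hxw
      rw [h5] at h6
      rw [hg_neg] at h7
      have h8 : s v x ≤ 1 / 2 := by
        by_contra hcon
        push Not at hcon
        have := hs.sign v w hvw x hx hcon
        linarith
      have h9 := hg_diff v w hvw x hx (abs_le.mpr ⟨h3.le, by linarith⟩)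
      exact pal_disj _ _ _ (Or.inl h9) h4 h7
  refine ⟨U, ?_, ?_, ?_⟩
  · intro v i
    simp only [U]
    split_ifs with h1
    · exact isOpen_lt (hs.cont v) continuous_const
    · exact (isOpen_lt continuous_const (hs.cont v)).inter ((pal_open _).preimage (hg_cont v))
  · intro v x _
    by_cases h : -1 < s v x
    · obtain ⟨j, hj⟩ := pal_cover (g v x)
      refine ⟨⟨(j : ℕ), by omega⟩, ?_⟩
      simp only [U]
      rw [if_neg (by omega)]
      exact ⟨h, hj⟩
    · push Not at h
      refine ⟨3, ?_⟩
      simp only [U]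
      rw [if_pos (by rfl)]
      show s v x < -(1 / 2)
      linarith
  · intro v w hvw i x hx hxv hxw
    rcases (hup v w).mp hvw with h | h
    · exact key v w h i x hx hxv hxw
    · exact key w v h i (-x) (neg_sph hx) hxw (by rwa [neg_neg])

end Pool.Agent.H55.HED
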